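import Pool.Agent.H10.TU.Dim
import Pool.Agent.H29.TU.Near

/-!
# MP_bd65ca_an: the expected formula `I(K) = 2^d / |K|` fails in every dimension `d ≥ 2`

For a symmetric convex body `K ⊂ ℝ^d`, `I(K)` is the infimum of `∫ F` over continuous integrable
`F ≥ 0` with `F(0) ≥ 1` and Fourier transform supported in `K`.  The square of the Fourier transform
of the indicator function of `K/2`, normalised, shows `I(K) ≤ 2^d / |K|`, and equality holds for balls
and for all bodies that tile.  We show that equality fails for the octagon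
`{|x₀| ≤ 7, |x₁| ≤ 7, |x₀ + x₁| ≤ 10, |x₀ - x₁| ≤ 10}`, and that in dimension `d` there are bodies `K_d`
for which `I(K_d)` is smaller than `2^d / |K_d|` by a factor exponentially small in `d`; the same holds,
up to the factor `μ ^ d`, for every body `K'` with `A K_d ⊆ K' ⊆ μ A K_d` for an invertible linear `A`,
that is, at Banach-Mazur distance at most `μ` from `K_d`.
-/

set_option autoImplicit false

open MeasureTheory Pool.Agent.H10.TU
open scoped Pointwise

namespace Pool.Agent.Results.MP_bd65ca_an.FormulaFails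

lemma gain_le : gain ≤ 2567 / 2568 := by unfold gain; norm_num

lemma gain_pos : 0 < gain := by unfold gain; norm_num

lemma vol_pos {d : ℕ} {K : Set (EuclideanSpace ℝ (Fin d))} (hK : SymBody K) :
    0 < volume.real K := by
  rw [Measure.real, ENNReal.toReal_pos_iff]
  refine ⟨?_, hK.1.measure_lt_top⟩
  exact (isOpen_interior.measure_pos volume hK.2.2.2).trans_le (measure_mono interior_subset)

lemma fin_step (d : ℕ) (K : Set (EuclideanSpace ℝ (Fin d))) (hK : SymBody K)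
    (F : EuclideanSpace ℝ (Fin d) → ℝ) (hF : F ∈ Adm K)
    (h : volume.real K * ∫ x, F x ≤ gain ^ (d / 2) * 2 ^ d) :
    SymBody K ∧ ∀ (A : EuclideanSpace ℝ (Fin d) →ₗ[ℝ] EuclideanSpace ℝ (Fin d)) (μ : ℝ)
      (K' : Set (EuclideanSpace ℝ (Fin d))), LinearMap.det A ≠ 0 → 0 ≤ μ → SymBody K' →
      A '' K ⊆ K' → K' ⊆ μ • (A '' K) →
      (Adm K').Nonempty ∧
      turanI K' ≤ μ ^ d * (2567 / 2568 : ℝ) ^ (d / 2) * (2 ^ d / volume.real K') := by
  refine ⟨hK, fun A μ K' hA hμ hK' hin hout => ?_⟩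
  have h2 : volume.real K * ∫ x, F x ≤ (2567 / 2568 : ℝ) ^ (d / 2) * 2 ^ d := by
    refine h.trans ?_
    apply mul_le_mul_of_nonneg_right _ (by positivity)
    exact pow_le_pow_left₀ gain_pos.le gain_le _
  obtain ⟨F', hF', h'⟩ := Pool.Agent.H29.TU.near hK.1 hF hA hin hμ hout
  rw [finrank_euclideanSpace_fin] at h'
  refine ⟨⟨F', hF'⟩, (turanI_le hF').trans ?_⟩
  rw [← mul_div_assoc, le_div_iff₀ (vol_pos hK'), mul_comm]
  refine h'.trans ((mul_le_mul_of_nonneg_left h2 (by positivity)).trans (le_of_eq ?_))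
  ring

/-- There are symmetric convex bodies `K_d ⊂ ℝ^d`, `d ≥ 2`, such that every symmetric convex body
`K'` with `A K_d ⊆ K' ⊆ μ A K_d` for some invertible linear map `A` and some `μ ≥ 0` (for instance
`K' = K_d`, with `A = id` and `μ = 1`) has `I(K') ≤ μ^d (2567/2568)^⌊d/2⌋ · 2^d / |K'|`; here `K_2` is
the octagon `{|x₀| ≤ 7, |x₁| ≤ 7, |x₀ + x₁| ≤ 10, |x₀ - x₁| ≤ 10}`. -/
theorem result : ∃ K : (d : ℕ) → Set (EuclideanSpace ℝ (Fin d)),
    K 2 = {x | |x 0| ≤ 7 ∧ |x 1| ≤ 7 ∧ |x 0 + x 1| ≤ 10 ∧ |x 0 - x 1| ≤ 10} ∧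
    ∀ d : ℕ, 2 ≤ d → SymBody (K d) ∧
      ∀ (A : EuclideanSpace ℝ (Fin d) →ₗ[ℝ] EuclideanSpace ℝ (Fin d)) (μ : ℝ)
        (K' : Set (EuclideanSpace ℝ (Fin d))), LinearMap.det A ≠ 0 → 0 ≤ μ → SymBody K' →
        A '' K d ⊆ K' → K' ⊆ μ • (A '' K d) →
        (Adm K').Nonempty ∧
        turanI K' ≤ μ ^ d * (2567 / 2568 : ℝ) ^ (d / 2) * (2 ^ d / volume.real K') := by
  classical
  have h2 := fin_step 2 Oct Oct_body FN FN_adm (by
    rw [vol_Oct, FN_integral]
    unfold gain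
    norm_num)
  have hall : ∀ d : ℕ, 2 ≤ d → ∃ K : Set (EuclideanSpace ℝ (Fin d)), SymBody K ∧
      ∀ (A : EuclideanSpace ℝ (Fin d) →ₗ[ℝ] EuclideanSpace ℝ (Fin d)) (μ : ℝ)
        (K' : Set (EuclideanSpace ℝ (Fin d))), LinearMap.det A ≠ 0 → 0 ≤ μ → SymBody K' →
        A '' K ⊆ K' → K' ⊆ μ • (A '' K) →
        (Adm K').Nonempty ∧
        turanI K' ≤ μ ^ d * (2567 / 2568 : ℝ) ^ (d / 2) * (2 ^ d / volume.real K') := by
    intro d hd
    obtain ⟨K, hK, F, hF, hc⟩ := good_all d hd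
    exact ⟨K, fin_step d K hK F hF hc⟩
  refine ⟨fun d => if h : d = 2 then h ▸ Oct else if h' : 2 ≤ d then Classical.choose (hall d h')
    else ∅, by simp; rfl, ?_⟩
  intro d hd
  by_cases h : d = 2
  · subst h
    simpa using h2
  · simp only [h, dif_neg, not_false_eq_true, hd, dif_pos]
    exact Classical.choose_spec (hall d hd)

end Pool.Agent.Results.MP_bd65ca_an.FormulaFails
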